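import Pool.Agent.V11164.NewtonMore

set_option autoImplicit false

open Metric Set
open Pool.Agent.V11164.Newton (E base apex pyramid Covers)

namespace Pool.Agent.Results.MP_90eaab_co.HeightDependence

/-- The Newton covering number `N*(C)`: the least number `k` of congruent copies (images under
isometries) of `C` whose union contains an open set containing `C`. -/
noncomputable def newton {d : ℕ} (C : Set (E d)) : ℕ :=
  sInf {k : ℕ | ∃ g : Fin k → (E d ≃ᵢ E d), Covers C g}

/-- In every dimension `d = n + 1 ≥ 2` the Newton covering number of the right pyramid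
`P^d(h)` depends on the height `h`: it equals `2` for all sufficiently large `h`, and it is at
least `3` for `h = √(3n) / 2`. -/
theorem result (n : ℕ) (hn : 1 ≤ n) :
    (∃ h h' : ℝ, 0 < h ∧ 0 < h' ∧ newton (pyramid n h) ≠ newton (pyramid n h')) ∧
    (∃ H : ℝ, 0 < H ∧ ∀ h : ℝ, H ≤ h → newton (pyramid n h) = 2) ∧
    3 ≤ newton (pyramid n (Real.sqrt (3 * n) / 2)) := by
  have hn0 : (0:ℝ) < n := by exact_mod_cast hn
  obtain ⟨H, hH, hup⟩ := Pool.Agent.V11164.Newton.upper hn
  have htwo : ∀ h : ℝ, H ≤ h → newton (pyramid n h) = 2 := by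
    intro h hh
    have hh0 : 0 < h := hH.trans_le hh
    apply le_antisymm
    · exact Nat.sInf_le (hup h hh)
    · refine le_csInf ⟨2, hup h hh⟩ ?_
      rintro k ⟨g, hg⟩
      exact Pool.Agent.V11164.Newton.two_le
        (Pool.Agent.V11164.Newton.isCompact_pyramid n hh0)
        (Pool.Agent.V11164.Newton.pyramid_two_points hn h) g hg
  have hpos : 0 < Real.sqrt (3 * n) / 2 := by positivity
  have hthree : 3 ≤ newton (pyramid n (Real.sqrt (3 * n) / 2)) := by
    refine le_csInf (Pool.Agent.V11164.Newton.exists_covers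
      (Pool.Agent.V11164.Newton.isCompact_pyramid n hpos)
      (Pool.Agent.V11164.Newton.pyramid_interior hn hpos)) ?_
    rintro k ⟨g, hg⟩
    exact Pool.Agent.V11164.Newton.three_le hn g hg
  refine ⟨⟨H, Real.sqrt (3 * n) / 2, hH, hpos, ?_⟩, ⟨H, hH, htwo⟩, hthree⟩
  rw [htwo H le_rfl]
  omega

end Pool.Agent.Results.MP_90eaab_co.HeightDependence
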